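import Pool.Agent.X136.GB.Pos

/-!
The resolvent of the generator of a positive group is bounded on the closed right half plane if this
half plane is in the resolvent set.
-/

set_option autoImplicit false

namespace Pool.Agent.X136.GB

open Filter Topology MeasureTheory Set

variable {E : Type*} [NormedAddCommGroup E] [InnerProductSpace ℂ E] [CompleteSpace E]
variable {T : ℝ → E →L[ℂ] E}

/-- `K` is a normal generating cone in a real form of `E`; `ρ` and `σ` are the real and the imaginary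
parts. -/
structure IsPosCone (K : Set E) (ρ σ : E →L[ℝ] E) (c : ℝ) : Prop where
  cone : IsCone K
  re : ∀ v ∈ K, ∀ w : ℂ, ρ (w • v) = w.re • v
  im : ∀ v ∈ K, ∀ w : ℂ, σ (w • v) = w.im • v
  dec : ∀ u, u = ρ u + Complex.I • σ u
  c_pos : 0 ≤ c
  normal : ∀ x y, x ∈ K → y - x ∈ K → ‖x‖ ≤ c * ‖y‖
  gen : ∀ u, ∃ a ∈ K, ∃ b ∈ K, ∃ a' ∈ K, ∃ b' ∈ K, u = (a - b) + Complex.I • (a' - b')

/-- `θ` is dominated on the cone -/
def Dom (K : Set E) (θ : E →L[ℝ] E) : Prop := ∀ v ∈ K, ∀ w : ℂ, ‖w‖ ≤ 1 → v + θ (w • v) ∈ K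

theorem dom_tr (h : IsC0Group T) {K : Set E} (hK : IsCone K) (hT : ∀ t, ∀ v ∈ K, T t v ∈ K)
    {R₀ : E →L[ℂ] E} (h0 : IsResolvent T 0 R₀) (hp : ∀ v ∈ K, R₀ v ∈ K)
    {θ : E →L[ℝ] E} (hθ : Dom K θ) {z : ℂ} (hz : 0 ≤ z.re) {v : E} (hv : v ∈ K) {t : ℝ}
    (ht : 0 ≤ t) : R₀ v + θ (tr T z v t) ∈ K := by
  have h1 := tr_eq h h0 v t
  simp only [zero_mul, neg_zero, Complex.exp_zero, one_smul] at h1
  have h2 : θ (tr T z v t) = ∫ s in (0 : ℝ)..t, θ (lp T z v s) := by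
    unfold tr
    exact (θ.intervalIntegral_comp_comm ((lp_cont h z v).intervalIntegrable _ _)).symm
  have h3 : tr T 0 v t + θ (tr T z v t) = ∫ s in (0 : ℝ)..t, (T s v + θ (lp T z v s)) := by
    have hc : Continuous fun s => θ (lp T z v s) := θ.continuous.comp (lp_cont h z v)
    rw [h2, intervalIntegral.integral_add ((h.cont v).intervalIntegrable _ _)
      (hc.intervalIntegrable _ _)]
    congr 1
    unfold tr
    congr 1
    ext s
    simp [lp]
  have h4 : tr T 0 v t + θ (tr T z v t) ∈ K := by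
    rw [h3]
    refine hK.integral ((h.cont v).add (θ.continuous.comp (lp_cont h z v))) ht fun s hs _ => ?_
    refine hθ _ (hT s v hv) _ ?_
    rw [Complex.norm_exp]
    simp only [Complex.neg_re, Complex.mul_re, Complex.ofReal_re, Complex.ofReal_im, mul_zero,
      sub_zero]
    exact Real.exp_le_one_iff.2 (by nlinarith)
  have h5 : R₀ v + θ (tr T z v t) = (tr T 0 v t + θ (tr T z v t)) + T t (R₀ v) := by
    rw [h1]; abel
  rw [h5]
  exact hK.add _ h4 _ (hT t _ (hp v hv))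

/-- averaging the truncated transforms -/
theorem avg (h : IsC0Group T) {z : ℂ} {R : E →L[ℂ] E} (hR : IsResolvent T z R) (v : E) (τ : ℝ) :
    τ • R v = (∫ t in (0 : ℝ)..τ, tr T z v t) + R (tr T z v τ) := by
  have h1 : ∀ t, R v = tr T z v t + R (lp T z v t) := by
    intro t
    rw [tr_eq h hR, lp, map_smul, hR.comm h]
    abel
  have htr : Continuous (tr T z v) := continuous_iff_continuousAt.2 fun t =>
    (tr_deriv h z v t).continuousAt
  have h2 : (∫ t in (0 : ℝ)..τ, R (lp T z v t)) = R (tr T z v τ) :=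
    R.intervalIntegral_comp_comm ((lp_cont h z v).intervalIntegrable _ _)
  have hc : Continuous fun s => R (lp T z v s) := R.continuous.comp (lp_cont h z v)
  rw [← h2, ← intervalIntegral.integral_add (htr.intervalIntegrable _ _)
    (hc.intervalIntegrable _ _)]
  simp only [← h1]
  simp

omit [CompleteSpace E] in
theorem IsPosCone.norm_le {K : Set E} {ρ σ : E →L[ℝ] E} {c : ℝ} (hK : IsPosCone K ρ σ c)
    {w u : E} (h1 : w + ρ u ∈ K) (h2 : w - ρ u ∈ K) (h3 : w + σ u ∈ K)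
    (h4 : w - σ u ∈ K) : ‖u‖ ≤ (4 * c + 2) * ‖w‖ := by
  have key : ∀ x : E, w + x ∈ K → w - x ∈ K → ‖x‖ ≤ (2 * c + 1) * ‖w‖ := by
    intro x h1 h2
    have h5 : ‖w + x‖ ≤ c * ‖(2 : ℝ) • w‖ := by
      refine hK.normal _ _ h1 ?_
      have : (2 : ℝ) • w - (w + x) = w - x := by module
      rwa [this]
    rw [norm_smul] at h5
    have h6 : ‖x‖ ≤ ‖w + x‖ + ‖w‖ := by
      have : x = (w + x) - w := by abel
      calc ‖x‖ = ‖(w + x) - w‖ := by rw [← this]
        _ ≤ _ := norm_sub_le _ _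
    have : ‖(2 : ℝ)‖ = 2 := by norm_num
    rw [this] at h5
    linarith
  have e := hK.dec u
  have h7 : ‖u‖ ≤ ‖ρ u‖ + ‖σ u‖ := by
    calc ‖u‖ = ‖ρ u + Complex.I • σ u‖ := by rw [← e]
      _ ≤ ‖ρ u‖ + ‖Complex.I • σ u‖ := norm_add_le _ _
      _ = _ := by rw [norm_smul, Complex.norm_I, one_mul]
  linarith [key _ h1 h2, key _ h3 h4]

omit [CompleteSpace E] in
theorem IsPosCone.doms {K : Set E} {ρ σ : E →L[ℝ] E} {c : ℝ} (hK : IsPosCone K ρ σ c) :
    Dom K ρ ∧ Dom K (-ρ) ∧ Dom K σ ∧ Dom K (-σ) := by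
  have key : ∀ v ∈ K, ∀ r : ℝ, |r| ≤ 1 → v + r • v ∈ K ∧ v - r • v ∈ K := by
    intro v hv r hr
    rw [abs_le] at hr
    constructor
    · have : v + r • v = (1 + r) • v := by module
      rw [this]
      exact hK.cone.smul _ (by linarith) _ hv
    · have : v - r • v = (1 - r) • v := by module
      rw [this]
      exact hK.cone.smul _ (by linarith) _ hv
  refine ⟨fun v hv w hw => ?_, fun v hv w hw => ?_, fun v hv w hw => ?_, fun v hv w hw => ?_⟩
  · rw [hK.re v hv]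
    exact (key v hv _ ((Complex.abs_re_le_norm w).trans hw)).1
  · change v + -(ρ (w • v)) ∈ K
    rw [hK.re v hv, ← sub_eq_add_neg]
    exact (key v hv _ ((Complex.abs_re_le_norm w).trans hw)).2
  · rw [hK.im v hv]
    exact (key v hv _ ((Complex.abs_im_le_norm w).trans hw)).1
  · change v + -(σ (w • v)) ∈ K
    rw [hK.im v hv, ← sub_eq_add_neg]
    exact (key v hv _ ((Complex.abs_im_le_norm w).trans hw)).2

/-- the domination `|R(z) v| ≤ R(0) v` for `Re z ≥ 0` -/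
theorem dom_res (h : IsC0Group T) {K : Set E} (hK : IsCone K) (hT : ∀ t, ∀ v ∈ K, T t v ∈ K)
    {R₀ : E →L[ℂ] E} (h0 : IsResolvent T 0 R₀) (hp : ∀ v ∈ K, R₀ v ∈ K)
    {θ : E →L[ℝ] E} (hθ : Dom K θ) {z : ℂ} (hz : 0 ≤ z.re) {R : E →L[ℂ] E}
    (hR : IsResolvent T z R) {v : E} (hv : v ∈ K) {B : ℝ}
    (hB : ∀ τ, 0 ≤ τ → ‖tr T z v τ‖ ≤ B) : R₀ v + θ (R v) ∈ K := by
  have htr : Continuous (tr T z v) := continuous_iff_continuousAt.2 fun t =>
    (tr_deriv h z v t).continuousAt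
  have h1 : ∀ τ : ℝ, 0 < τ → R₀ v + θ (R v - τ⁻¹ • R (tr T z v τ)) ∈ K := by
    intro τ hτ
    have h2 : (∫ t in (0 : ℝ)..τ, (R₀ v + θ (tr T z v t))) ∈ K :=
      hK.integral (continuous_const.add (θ.continuous.comp htr)) hτ.le fun t ht _ =>
        dom_tr h hK hT h0 hp hθ hz hv ht
    have h3 : (∫ t in (0 : ℝ)..τ, (R₀ v + θ (tr T z v t))) =
        τ • R₀ v + θ (∫ t in (0 : ℝ)..τ, tr T z v t) := by
      have hc : Continuous fun t => θ (tr T z v t) := θ.continuous.comp htr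
      rw [intervalIntegral.integral_add (intervalIntegrable_const)
        (hc.intervalIntegrable _ _)]
      congr 1
      · simp
      · exact θ.intervalIntegral_comp_comm (htr.intervalIntegrable _ _)
    rw [h3] at h2
    have h4 := hK.smul τ⁻¹ (inv_nonneg.2 hτ.le) _ h2
    have h5 : τ⁻¹ • (τ • R₀ v + θ (∫ t in (0 : ℝ)..τ, tr T z v t)) =
        R₀ v + θ (R v - τ⁻¹ • R (tr T z v τ)) := by
      have h6 : R v - τ⁻¹ • R (tr T z v τ) = τ⁻¹ • (∫ t in (0 : ℝ)..τ, tr T z v t) := by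
        have h7 := avg h hR v τ
        have h8 : (∫ t in (0 : ℝ)..τ, tr T z v t) = τ • R v - R (tr T z v τ) := by
          rw [h7]; abel
        rw [h8, smul_sub, smul_smul, inv_mul_cancel₀ hτ.ne', one_smul]
      rw [h6, smul_add, smul_smul, inv_mul_cancel₀ hτ.ne', one_smul]
      congr 1
      exact (θ.map_smul _ _).symm
    rwa [h5] at h4
  have h2 : Tendsto (fun τ : ℝ => τ⁻¹ • R (tr T z v τ)) atTop (𝓝 0) := by
    have h3 : Tendsto (fun τ : ℝ => τ⁻¹ * (‖R‖ * B)) atTop (𝓝 0) := by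
      simpa using tendsto_inv_atTop_zero.mul_const (‖R‖ * B)
    refine squeeze_zero_norm' ?_ h3
    filter_upwards [eventually_gt_atTop 0] with τ hτ
    rw [norm_smul, norm_inv, Real.norm_of_nonneg hτ.le]
    refine mul_le_mul_of_nonneg_left ?_ (inv_nonneg.2 hτ.le)
    exact (R.le_opNorm _).trans (mul_le_mul_of_nonneg_left (hB τ hτ.le) (norm_nonneg _))
  have h3 : Tendsto (fun τ : ℝ => R₀ v + θ (R v - τ⁻¹ • R (tr T z v τ))) atTop
      (𝓝 (R₀ v + θ (R v))) := by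
    refine Tendsto.const_add _ ?_
    refine (θ.continuous.tendsto _).comp ?_
    simpa using h2.const_sub (R v)
  exact hK.closed.mem_of_tendsto h3 ((eventually_gt_atTop 0).mono h1)

/-- **The uniform bound.** -/
theorem res_bound (h : IsC0Group T) {K : Set E} {ρ σ : E →L[ℝ] E} {c : ℝ}
    (hK : IsPosCone K ρ σ c) (hT : ∀ t, ∀ v ∈ K, T t v ∈ K)
    (hex : ∀ z : ℂ, 0 ≤ z.re → ∃ R : E →L[ℂ] E, IsResolvent T z R) :
    ∃ N : ℝ, ∀ (z : ℂ) (R : E →L[ℂ] E), 0 ≤ z.re → IsResolvent T z R → ‖R‖ ≤ N := by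
  obtain ⟨R₀, h0⟩ := hex 0 (by simp)
  have hp : ∀ v ∈ K, R₀ v ∈ K := by
    refine pos_resolvent h hK.cone hT (fun l hl => hex l (by simpa using hl)) 0 le_rfl R₀ ?_
    simpa using h0
  obtain ⟨d1, d2, d3, d4⟩ := hK.doms
  have hkey : ∀ v ∈ K, ∀ (z : ℂ) (R : E →L[ℂ] E), 0 ≤ z.re → IsResolvent T z R →
      ‖R v‖ ≤ (4 * c + 2) * ‖R₀ v‖ := by
    intro v hv z R hz hR
    have hB : ∀ τ, 0 ≤ τ → ‖tr T z v τ‖ ≤ (4 * c + 2) * ‖R₀ v‖ := by
      intro τ hτ
      refine hK.norm_le (dom_tr h hK.cone hT h0 hp d1 hz hv hτ) ?_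
        (dom_tr h hK.cone hT h0 hp d3 hz hv hτ) ?_
      · have := dom_tr h hK.cone hT h0 hp d2 hz hv hτ
        rw [sub_eq_add_neg]
        exact this
      · have := dom_tr h hK.cone hT h0 hp d4 hz hv hτ
        rw [sub_eq_add_neg]
        exact this
    refine hK.norm_le (dom_res h hK.cone hT h0 hp d1 hz hR hv hB) ?_
      (dom_res h hK.cone hT h0 hp d3 hz hR hv hB) ?_
    · have := dom_res h hK.cone hT h0 hp d2 hz hR hv hB
      rw [sub_eq_add_neg]
      exact this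
    · have := dom_res h hK.cone hT h0 hp d4 hz hR hv hB
      rw [sub_eq_add_neg]
      exact this
  let ι := {p : ℂ × (E →L[ℂ] E) // 0 ≤ p.1.re ∧ IsResolvent T p.1 p.2}
  have hbs : ∀ x : E, ∃ C, ∀ i : ι, ‖(i.1.2 : E →L[ℂ] E) x‖ ≤ C := by
    intro x
    obtain ⟨a, ha, b, hb, a', ha', b', hb', e⟩ := hK.gen x
    refine ⟨(4 * c + 2) * ‖R₀ a‖ + (4 * c + 2) * ‖R₀ b‖ + ((4 * c + 2) * ‖R₀ a'‖ +
      (4 * c + 2) * ‖R₀ b'‖), fun i => ?_⟩
    obtain ⟨⟨z, R⟩, hz, hR⟩ := i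
    change ‖R x‖ ≤ _
    rw [e, map_add, map_smul, map_sub, map_sub]
    refine (norm_add_le _ _).trans ?_
    rw [norm_smul, Complex.norm_I, one_mul]
    refine add_le_add ((norm_sub_le _ _).trans ?_) ((norm_sub_le _ _).trans ?_)
    · exact add_le_add (hkey a ha z R hz hR) (hkey b hb z R hz hR)
    · exact add_le_add (hkey a' ha' z R hz hR) (hkey b' hb' z R hz hR)
  obtain ⟨C, hC⟩ := banach_steinhaus (g := fun i : ι => i.1.2) hbs
  exact ⟨C, fun z R hz hR => hC ⟨(z, R), hz, hR⟩⟩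

end Pool.Agent.X136.GB
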