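import Mathlib

/-!
Strongly continuous groups on a complex Hilbert space: generator, resolvent, spectrum, growth.
-/

set_option autoImplicit false

namespace Pool.Agent.X136.GB

open Filter Topology MeasureTheory Set

variable {E : Type*} [NormedAddCommGroup E] [InnerProductSpace ℂ E]

/-- `T` is a strongly continuous group of bounded operators. -/
structure IsC0Group (T : ℝ → E →L[ℂ] E) : Prop where
  zero : T 0 = 1
  add : ∀ s t, T (s + t) = T s * T t
  cont : ∀ x, Continuous fun t => T t x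

/-- `x` is in the domain of the generator `A` of `T` and `A x = y`. -/
def Gen (T : ℝ → E →L[ℂ] E) (x y : E) : Prop := HasDerivAt (fun t : ℝ => T t x) y 0

/-- `R` is the bounded inverse of `z - A`, where `A` is the generator of `T`. -/
def IsResolvent (T : ℝ → E →L[ℂ] E) (z : ℂ) (R : E →L[ℂ] E) : Prop :=
  (∀ y, Gen T (R y) (z • R y - y)) ∧ ∀ x y, Gen T x y → R (z • x - y) = x

/-- The spectrum of the generator of `T`. -/
def genSpectrum (T : ℝ → E →L[ℂ] E) : Set ℂ := {z | ¬ ∃ R, IsResolvent T z R}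

section basic

variable {T : ℝ → E →L[ℂ] E}

theorem IsC0Group.add_apply (h : IsC0Group T) (s t : ℝ) (x : E) : T (s + t) x = T s (T t x) := by
  rw [h.add]; rfl

theorem IsC0Group.zero_apply (h : IsC0Group T) (x : E) : T 0 x = x := by
  rw [h.zero]; rfl

theorem IsC0Group.local_bound [CompleteSpace E] (h : IsC0Group T) (b : ℝ) :
    ∃ M : ℝ, 1 ≤ M ∧ ∀ t, |t| ≤ b → ‖T t‖ ≤ M := by
  have h1 : ∀ x : E, ∃ C, ∀ i : Icc (-b) b, ‖T (i : ℝ) x‖ ≤ C := by
    intro x
    obtain ⟨C, hC⟩ := (isCompact_Icc (a := -b) (b := b)).exists_bound_of_continuousOn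
      (h.cont x).continuousOn
    exact ⟨C, fun i => hC i i.2⟩
  obtain ⟨C, hC⟩ := banach_steinhaus (g := fun i : Icc (-b) b => T (i : ℝ)) h1
  refine ⟨max C 1, le_max_right _ _, fun t ht => (hC ⟨t, abs_le.1 ht⟩).trans (le_max_left _ _)⟩

theorem IsC0Group.pow (h : IsC0Group T) (t : ℝ) (n : ℕ) : T (n * t) = T t ^ n := by
  induction n with
  | zero => simp [h.zero]
  | succ n ih =>
    rw [pow_succ, ← ih, ← h.add]
    congr 1
    push_cast
    ring

theorem IsC0Group.pow_bound (h : IsC0Group T) {t₀ a : ℝ}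
    (ha : ‖T t₀‖ ≤ Real.exp (a * t₀)) (n : ℕ) : ‖T (n * t₀)‖ ≤ Real.exp (a * (n * t₀)) := by
  induction n with
  | zero =>
    simp only [Nat.cast_zero, zero_mul, mul_zero, Real.exp_zero, h.zero]
    exact ContinuousLinearMap.norm_id_le
  | succ n ih =>
    have e : ((n + 1 : ℕ) : ℝ) * t₀ = n * t₀ + t₀ := by push_cast; ring
    rw [e, h.add, mul_add, Real.exp_add]
    exact (norm_mul_le _ _).trans (mul_le_mul ih ha (norm_nonneg _) (Real.exp_pos _).le)

/-- growth from one value -/
theorem IsC0Group.growth [CompleteSpace E] (h : IsC0Group T) {t₀ a : ℝ} (ht : 0 < t₀)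
    (ha : ‖T t₀‖ ≤ Real.exp (a * t₀)) :
    ∃ C : ℝ, 0 < C ∧ ∀ t, 0 ≤ t → ‖T t‖ ≤ C * Real.exp (a * t) := by
  obtain ⟨M, hM1, hM⟩ := h.local_bound t₀
  refine ⟨M * Real.exp (|a| * t₀), by positivity, fun t h0 => ?_⟩
  set n : ℕ := ⌊t / t₀⌋₊ with hn
  have hn1 : (n : ℝ) * t₀ ≤ t := by
    have := Nat.floor_le (div_nonneg h0 ht.le)
    rwa [← hn, le_div_iff₀ ht] at this
  have hn2 : t < (n + 1) * t₀ := by
    have := Nat.lt_floor_add_one (t / t₀)
    rwa [← hn, div_lt_iff₀ ht] at this
  have e1 : t = n * t₀ + (t - n * t₀) := by ring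
  have h2 : ‖T (n * t₀)‖ ≤ Real.exp (a * (n * t₀)) := h.pow_bound ha n
  have h3 : ‖T (t - n * t₀)‖ ≤ M := hM _ (by rw [abs_le]; constructor <;> nlinarith)
  calc ‖T t‖ = ‖T (n * t₀) * T (t - n * t₀)‖ := by rw [← h.add, ← e1]
    _ ≤ Real.exp (a * (n * t₀)) * M := (norm_mul_le _ _).trans (by gcongr)
    _ ≤ M * Real.exp (|a| * t₀) * Real.exp (a * t) := by
        rw [mul_comm _ M, mul_assoc, ← Real.exp_add]
        refine mul_le_mul_of_nonneg_left (Real.exp_le_exp.2 ?_) (by linarith)
        have h4 : a * (n * t₀) - a * t ≤ |a| * t₀ := by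
          have h5 : a * (n * t₀) - a * t = a * (n * t₀ - t) := by ring
          rw [h5]
          refine (le_abs_self _).trans ?_
          rw [abs_mul]
          refine mul_le_mul_of_nonneg_left ?_ (abs_nonneg _)
          rw [abs_le]; constructor <;> nlinarith
        linarith

/-- some exponential growth bound -/
theorem IsC0Group.growth0 [CompleteSpace E] (h : IsC0Group T) :
    ∃ a C : ℝ, 0 < C ∧ ∀ t, 0 ≤ t → ‖T t‖ ≤ C * Real.exp (a * t) := by
  refine ⟨‖T 1‖, h.growth one_pos ?_⟩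
  have := Real.add_one_le_exp (‖T 1‖ * 1)
  linarith [norm_nonneg (T 1)]

theorem Gen.deriv (h : IsC0Group T) {x y : E} (g : Gen T x y) (t : ℝ) :
    HasDerivAt (fun s : ℝ => T s x) (T t y) t := by
  have h1 : HasDerivAt (fun s : ℝ => T (s - t) x) y t := by
    have h2 : HasDerivAt (fun s : ℝ => T s x) y (t - t) := by rw [sub_self]; exact g
    simpa using h2.comp_sub_const t t
  have h3 : HasDerivAt (fun s : ℝ => (T t).restrictScalars ℝ (T (s - t) x)) (T t y) t :=
    ((T t).restrictScalars ℝ).hasFDerivAt.comp_hasDerivAt t h1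
  refine h3.congr_of_eventuallyEq (Eventually.of_forall fun s => ?_)
  change T s x = T t (T (s - t) x)
  rw [← h.add_apply]
  congr 2
  ring

theorem Gen.map (h : IsC0Group T) {x y : E} (g : Gen T x y) (t : ℝ) : Gen T (T t x) (T t y) := by
  have h3 : HasDerivAt (fun s : ℝ => (T t).restrictScalars ℝ (T s x)) (T t y) 0 :=
    ((T t).restrictScalars ℝ).hasFDerivAt.comp_hasDerivAt 0 g
  refine h3.congr_of_eventuallyEq (Eventually.of_forall fun s => ?_)
  change T s (T t x) = T t (T s x)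
  rw [← h.add_apply, ← h.add_apply, add_comm]

theorem IsResolvent.unique {z : ℂ} {R R' : E →L[ℂ] E} (h : IsResolvent T z R)
    (h' : IsResolvent T z R') : R = R' := by
  ext y
  have h1 := h.2 _ _ (h'.1 y)
  rwa [sub_sub_cancel] at h1

theorem IsResolvent.comm (h : IsC0Group T) {z : ℂ} {R : E →L[ℂ] E} (hR : IsResolvent T z R)
    (t : ℝ) (y : E) : R (T t y) = T t (R y) := by
  have h1 := hR.2 _ _ ((hR.1 y).map h t)
  rw [map_sub (T t), map_smul (T t), sub_sub_cancel] at h1
  exact h1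

/-- the integrand of the Laplace transform -/
noncomputable def lp (T : ℝ → E →L[ℂ] E) (z : ℂ) (y : E) (s : ℝ) : E :=
  Complex.exp (-(z * s)) • T s y

theorem lp_cont (h : IsC0Group T) (z : ℂ) (y : E) : Continuous (lp T z y) := by
  unfold lp
  have := h.cont y
  fun_prop

/-- the truncated Laplace transform -/
noncomputable def tr (T : ℝ → E →L[ℂ] E) (z : ℂ) (y : E) (t : ℝ) : E := ∫ s in (0 : ℝ)..t, lp T z y s

theorem lp_deriv (h : IsC0Group T) {x y : E} (g : Gen T x y) (z : ℂ) (t : ℝ) :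
    HasDerivAt (lp T z x) (-lp T z (z • x - y) t) t := by
  have h1 : HasDerivAt (fun s : ℝ => Complex.exp (-(z * s))) (Complex.exp (-(z * t)) * (-z)) t := by
    have h2 : HasDerivAt (fun s : ℝ => -(z * (s : ℂ))) (-z) t := by
      have h3 := ((Complex.ofRealCLM.hasDerivAt (x := t)).const_mul z).neg
      simp only [Complex.ofRealCLM_apply, Complex.ofReal_one, mul_one] at h3
      exact h3
    exact h2.cexp
  have h4 := h1.smul (g.deriv h t)
  have e1 : -lp T z (z • x - y) t =
      Complex.exp (-(z * t)) • T t y + (Complex.exp (-(z * t)) * -z) • T t x := by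
    unfold lp
    rw [map_sub, map_smul, smul_sub, mul_smul, neg_smul, smul_neg]
    abel
  rw [e1]
  exact h4

theorem tr_eq (h : IsC0Group T) [CompleteSpace E] {z : ℂ} {R : E →L[ℂ] E}
    (hR : IsResolvent T z R) (y : E) (t : ℝ) :
    tr T z y t = R y - Complex.exp (-(z * t)) • T t (R y) := by
  have h1 : ∀ s : ℝ, HasDerivAt (fun s => -lp T z (R y) s) (lp T z y s) s := by
    intro s
    have h2 := (lp_deriv h (hR.1 y) z s).neg
    rwa [neg_neg, sub_sub_cancel] at h2
  have h3 := intervalIntegral.integral_eq_sub_of_hasDerivAt (a := 0) (b := t)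
    (fun s _ => h1 s) ((lp_cont h z y).intervalIntegrable _ _)
  rw [tr, h3]
  simp only [lp, Complex.ofReal_zero, mul_zero, neg_zero, Complex.exp_zero, one_smul, h.zero_apply]
  abel

end basic

end Pool.Agent.X136.GB
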