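import Mathlib

/-!
Parseval's identity on `[0, 1]` for functions with values in a Hilbert space, as two inequalities.
-/

set_option autoImplicit false

namespace Pool.Agent.X136.GB

open Filter Topology MeasureTheory Set

variable {E : Type*} [NormedAddCommGroup E] [InnerProductSpace ℂ E]

/-- the Fourier coefficient -/
noncomputable def fc (f : ℝ → E) (n : ℤ) : E :=
  ∫ s in (0 : ℝ)..1, Complex.exp (-(2 * Real.pi * Complex.I * n * s)) • f s

theorem fc_scalar {g : ℝ → ℂ} (hg : Continuous g) :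
    HasSum (fun n : ℤ => ‖fc g n‖ ^ 2) (∫ s in (0 : ℝ)..1, ‖g s‖ ^ 2) := by
  have hL : MemLp g 2 (volume.restrict (Ioc (0 : ℝ) 1)) := by
    obtain ⟨C, hC⟩ := (isCompact_Icc (a := (0 : ℝ)) (b := 1)).exists_bound_of_continuousOn
      hg.continuousOn
    refine MemLp.of_bound (hg.aestronglyMeasurable) C ?_
    exact (ae_restrict_iff' measurableSet_Ioc).2
      (Eventually.of_forall fun s hs => hC s ⟨hs.1.le, hs.2⟩)
  have h := hasSum_sq_fourierCoeffOn (zero_lt_one' ℝ) hL
  have e : ∀ n : ℤ, fourierCoeffOn (zero_lt_one' ℝ) g n = fc g n := by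
    intro n
    rw [fourierCoeffOn_eq_integral, fc]
    simp only [sub_zero, div_one, one_smul]
    congr 1
    ext s
    rw [fourier_coe_apply]
    congr 2
    push_cast
    ring
  simp only [e, sub_zero, inv_one, one_smul] at h
  exact h

theorem fc_inner {f : ℝ → E} (hf : Continuous f) (v : E) (n : ℤ) [CompleteSpace E] :
    inner ℂ v (fc f n) = fc (fun s => inner ℂ v (f s)) n := by
  unfold fc
  have hc : Continuous fun s : ℝ => Complex.exp (-(2 * Real.pi * Complex.I * n * s)) • f s := by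
    fun_prop
  have h := (innerSL ℂ v).intervalIntegral_comp_comm (hc.intervalIntegrable (μ := volume) 0 1)
  simp only [innerSL_apply_apply, inner_smul_right] at h
  rw [← h]
  rfl

theorem fc_proj {f : ℝ → E} (hf : Continuous f) [CompleteSpace E] (V : Submodule ℂ E)
    [FiniteDimensional ℂ V] :
    HasSum (fun n : ℤ => ‖V.starProjection (fc f n)‖ ^ 2)
      (∫ s in (0 : ℝ)..1, ‖V.starProjection (f s)‖ ^ 2) := by
  set b := stdOrthonormalBasis ℂ V with hb
  have h1 : ∀ x : E, ‖V.starProjection x‖ ^ 2 = ∑ i, ‖inner ℂ ((b i : V) : E) x‖ ^ 2 := by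
    intro x
    have h2 := b.sum_sq_norm_inner_right (V.orthogonalProjectionOnto x)
    change ‖V.orthogonalProjectionOnto x‖ ^ 2 = _
    rw [← h2]
    refine Finset.sum_congr rfl fun i _ => ?_
    rw [Submodule.inner_orthogonalProjectionOnto_eq_of_mem_left]
  simp only [h1]
  have h3 : (∫ s in (0 : ℝ)..1, ∑ i, ‖inner ℂ ((b i : V) : E) (f s)‖ ^ 2) =
      ∑ i, ∫ s in (0 : ℝ)..1, ‖inner ℂ ((b i : V) : E) (f s)‖ ^ 2 := by
    rw [intervalIntegral.integral_finsetSum]
    intro i _
    have : Continuous fun s => ‖inner ℂ ((b i : V) : E) (f s)‖ ^ 2 := by fun_prop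
    exact this.intervalIntegrable _ _
  rw [h3]
  refine hasSum_sum fun i _ => ?_
  simp only [fc_inner hf]
  exact fc_scalar (by fun_prop)

/-- Bessel's inequality -/
theorem bessel {f : ℝ → E} (hf : Continuous f) [CompleteSpace E] (F : Finset ℤ) :
    ∑ n ∈ F, ‖fc f n‖ ^ 2 ≤ ∫ s in (0 : ℝ)..1, ‖f s‖ ^ 2 := by
  set V : Submodule ℂ E := Submodule.span ℂ (fc f '' (F : Set ℤ)) with hV
  have : FiniteDimensional ℂ V :=
    FiniteDimensional.span_of_finite ℂ ((F.finite_toSet).image _)
  have h1 := fc_proj hf V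
  have h2 : ∑ n ∈ F, ‖fc f n‖ ^ 2 = ∑ n ∈ F, ‖V.starProjection (fc f n)‖ ^ 2 := by
    refine Finset.sum_congr rfl fun n hn => ?_
    have : fc f n ∈ V := Submodule.subset_span ⟨n, hn, rfl⟩
    rw [Submodule.starProjection_eq_self_iff.2 this]
  rw [h2]
  refine (sum_le_hasSum F (fun _ _ => by positivity) h1).trans ?_
  refine intervalIntegral.integral_mono_on zero_le_one ?_ ?_ fun s _ => ?_
  · have : Continuous fun s => ‖V.starProjection (f s)‖ ^ 2 := by fun_prop
    exact this.intervalIntegrable _ _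
  · have : Continuous fun s => ‖f s‖ ^ 2 := by fun_prop
    exact this.intervalIntegrable _ _
  · rw [V.norm_sq_eq_add_norm_sq_starProjection (f s)]
    nlinarith [norm_nonneg (Vᗮ.starProjection (f s))]

/-- completeness -/
theorem parseval_le {f : ℝ → E} (hf : Continuous f) [CompleteSpace E] {B : ℝ}
    (hB : ∀ F : Finset ℤ, ∑ n ∈ F, ‖fc f n‖ ^ 2 ≤ B) :
    ∫ s in (0 : ℝ)..1, ‖f s‖ ^ 2 ≤ B := by
  refine le_of_forall_pos_le_add fun ε hε => ?_
  have hcomp : IsCompact (f '' Icc (0 : ℝ) 1) := isCompact_Icc.image hf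
  obtain ⟨t, -, ht, htc⟩ := Metric.totallyBounded_iff.1 hcomp.totallyBounded (Real.sqrt ε)
    (Real.sqrt_pos.2 hε) |> fun ⟨t, ht, htc⟩ => (⟨t, trivial, ht, htc⟩ :
      ∃ t : Set E, True ∧ t.Finite ∧ f '' Icc (0 : ℝ) 1 ⊆ ⋃ y ∈ t, Metric.ball y (Real.sqrt ε))
  set V : Submodule ℂ E := Submodule.span ℂ t with hV
  have : FiniteDimensional ℂ V := FiniteDimensional.span_of_finite ℂ ht
  have h1 := fc_proj hf V
  have h2 : ∫ s in (0 : ℝ)..1, ‖V.starProjection (f s)‖ ^ 2 ≤ B := by
    refine hasSum_le_of_sum_le h1 fun F => ?_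
    refine le_trans (Finset.sum_le_sum fun n _ => ?_) (hB F)
    rw [V.norm_sq_eq_add_norm_sq_starProjection (fc f n)]
    nlinarith [norm_nonneg (Vᗮ.starProjection (fc f n))]
  have hc1 : Continuous fun s => ‖V.starProjection (f s)‖ ^ 2 := by fun_prop
  have hc2 : Continuous fun s => ‖f s‖ ^ 2 := by fun_prop
  calc ∫ s in (0 : ℝ)..1, ‖f s‖ ^ 2 ≤ ∫ s in (0 : ℝ)..1, (‖V.starProjection (f s)‖ ^ 2 + ε) := by
        refine intervalIntegral.integral_mono_on zero_le_one (hc2.intervalIntegrable _ _)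
          ((hc1.add continuous_const).intervalIntegrable _ _) fun s hs => ?_
        rw [V.norm_sq_eq_add_norm_sq_starProjection (f s)]
        have h3 : f s ∈ f '' Icc (0 : ℝ) 1 := ⟨s, hs, rfl⟩
        obtain ⟨y, hy, hys⟩ := mem_iUnion₂.1 (htc h3)
        have hyV : y ∈ V := Submodule.subset_span hy
        have h4 : Vᗮ.starProjection (f s) = Vᗮ.starProjection (f s - y) := by
          rw [map_sub]
          have : Vᗮ.starProjection y = 0 := by
            rw [Submodule.starProjection_orthogonal_apply_eq_zero hyV]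
          rw [this, sub_zero]
        have h5 : ‖Vᗮ.starProjection (f s)‖ ≤ Real.sqrt ε := by
          rw [h4]
          have h6 := V.norm_sq_eq_add_norm_sq_starProjection (f s - y)
          have h7 : ‖f s - y‖ < Real.sqrt ε := by simpa [dist_eq_norm] using hys
          have h8 : ‖Vᗮ.starProjection (f s - y)‖ ≤ ‖f s - y‖ := by
            refine abs_le_of_sq_le_sq' ?_ (norm_nonneg _) |>.2
            nlinarith [norm_nonneg (V.starProjection (f s - y))]
          linarith
        have h9 : ‖Vᗮ.starProjection (f s)‖ ^ 2 ≤ ε := by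
          calc ‖Vᗮ.starProjection (f s)‖ ^ 2 ≤ Real.sqrt ε ^ 2 := by gcongr
            _ = ε := Real.sq_sqrt hε.le
        linarith
    _ = (∫ s in (0 : ℝ)..1, ‖V.starProjection (f s)‖ ^ 2) + ε := by
        rw [intervalIntegral.integral_add (hc1.intervalIntegrable _ _)
          intervalIntegrable_const]
        simp
    _ ≤ B + ε := by linarith

end Pool.Agent.X136.GB
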