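import Pool.Agent.X136.GB.Bound
import Pool.Agent.X136.GB.Par

/-!
Gearhart's argument on `[0, 1]`: a resolvent which is bounded on the closed right half plane makes
the spectral radius of `T 1` at most one.
-/

set_option autoImplicit false

namespace Pool.Agent.X136.GB

open Filter Topology MeasureTheory Set

variable {E : Type*} [NormedAddCommGroup E] [InnerProductSpace ℂ E] [CompleteSpace E]
variable {T : ℝ → E →L[ℂ] E}

theorem fc_lp (h : IsC0Group T) {z : ℂ} {R : E →L[ℂ] E} {n : ℤ}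
    (hR : IsResolvent T (z + 2 * Real.pi * Complex.I * n) R) (x : E) :
    fc (lp T z x) n = R (x - Complex.exp (-z) • T 1 x) := by
  have h1 := tr_eq h hR x 1
  have h2 : fc (lp T z x) n = tr T (z + 2 * Real.pi * Complex.I * n) x 1 := by
    unfold fc tr
    congr 1
    ext s
    unfold lp
    rw [smul_smul, ← Complex.exp_add]
    congr 2
    ring
  have h3 : Complex.exp (-((z + 2 * Real.pi * Complex.I * n) * (1 : ℝ))) = Complex.exp (-z) := by
    have e : -((z + 2 * Real.pi * Complex.I * n) * ((1 : ℝ) : ℂ)) =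
        -z + ((-n : ℤ) : ℂ) * (2 * Real.pi * Complex.I) := by
      push_cast
      ring
    rw [e, Complex.exp_add, Complex.exp_int_mul_two_pi_mul_I, mul_one]
  rw [h2, h1, h3, map_sub, map_smul, hR.comm h]

/-- lower bound for `1 - ζ T 1`, `ζ` not close to zero -/
theorem lower_big (h : IsC0Group T) {N M : ℝ} (hM1 : 1 ≤ M) (hM : ∀ t, |t| ≤ 1 → ‖T t‖ ≤ M)
    (hex : ∀ z : ℂ, 0 ≤ z.re → ∃ R : E →L[ℂ] E, IsResolvent T z R)
    (hN : ∀ (z : ℂ) (R : E →L[ℂ] E), 0 ≤ z.re → IsResolvent T z R → ‖R‖ ≤ N)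
    {z : ℂ} (hz : 0 ≤ z.re) (x : E) :
    Real.exp (-z.re) * ‖x‖ ≤
      2 * M ^ 2 * (1 + 2 * ‖T 1‖ * N) * ‖x - Complex.exp (-z) • T 1 x‖ := by
  have hN0 : 0 ≤ N := by
    obtain ⟨R, hR⟩ := hex 0 (by simp)
    exact (norm_nonneg _).trans (hN 0 R (by simp) hR)
  set u : E := x - Complex.exp (-z) • T 1 x with hu
  set l : ℝ := 2 * ‖T 1‖ with hl
  have hl0 : 0 ≤ l := by positivity
  -- the vector `v`
  have hlT : Real.exp (-l) * ‖T 1‖ ≤ 1 / 2 := by
    have h1 : l + 1 ≤ Real.exp l := Real.add_one_le_exp l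
    have h2 : Real.exp (-l) * Real.exp l = 1 := by rw [← Real.exp_add]; simp
    have h3 : 0 < Real.exp (-l) := Real.exp_pos _
    have h4 : Real.exp (-l) * (l + 1) ≤ 1 := by
      calc Real.exp (-l) * (l + 1) ≤ Real.exp (-l) * Real.exp l := by gcongr
        _ = 1 := h2
    have h5 : Real.exp (-l) * (2 * ‖T 1‖) ≤ 1 := by
      rw [← hl]; nlinarith
    linarith
  have hnz : ‖Complex.exp (-(z + l))‖ ≤ Real.exp (-l) := by
    rw [Complex.norm_exp]
    refine Real.exp_le_exp.2 ?_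
    simp only [Complex.neg_re, Complex.add_re, Complex.ofReal_re]
    linarith
  set B : E →L[ℂ] E := Complex.exp (-(z + l)) • T 1 with hB
  have hBn : ‖B‖ ≤ 1 / 2 := by
    rw [hB, norm_smul]
    exact (mul_le_mul_of_nonneg_right hnz (norm_nonneg _)).trans hlT
  obtain ⟨U, hU⟩ : IsUnit (1 - B) := isUnit_one_sub_of_norm_lt_one (by linarith)
  set v : E := (↑U⁻¹ : E →L[ℂ] E) u with hv
  have hv1 : v - B v = u := by
    have h2 : (↑U : E →L[ℂ] E) * (↑U⁻¹ : E →L[ℂ] E) = 1 := U.mul_inv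
    rw [hU] at h2
    have h3 := congrArg (fun A : E →L[ℂ] E => A u) h2
    simpa using h3
  have hv2 : ‖v‖ ≤ 2 * ‖u‖ := by
    have h1 : ‖v‖ ≤ ‖u‖ + ‖B v‖ := by
      have : v = u + B v := by rw [← hv1]; abel
      calc ‖v‖ = ‖u + B v‖ := by rw [← this]
        _ ≤ _ := norm_add_le _ _
    have h2 : ‖B v‖ ≤ 1 / 2 * ‖v‖ := (B.le_opNorm v).trans (by gcongr)
    linarith
  -- Bessel
  have hbes : ∀ F : Finset ℤ, ∑ n ∈ F, ‖fc (lp T (z + l) v) n‖ ^ 2 ≤ (2 * M * ‖u‖) ^ 2 := by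
    intro F
    refine (bessel (lp_cont h _ _) F).trans ?_
    have hc : Continuous fun s => ‖lp T (z + l) v s‖ ^ 2 := by
      have := lp_cont h (z + l) v
      fun_prop
    calc ∫ s in (0 : ℝ)..1, ‖lp T (z + l) v s‖ ^ 2 ≤ ∫ s in (0 : ℝ)..1, (2 * M * ‖u‖) ^ 2 := by
          refine intervalIntegral.integral_mono_on zero_le_one (hc.intervalIntegrable _ _)
            intervalIntegrable_const fun s hs => ?_
          refine pow_le_pow_left₀ (norm_nonneg _) ?_ 2
          rw [norm_lp]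
          have h1 : Real.exp (-((z + l).re * s)) ≤ 1 := by
            refine Real.exp_le_one_iff.2 ?_
            simp only [Complex.add_re, Complex.ofReal_re]
            nlinarith [hs.1]
          have h2 : ‖T s v‖ ≤ M * ‖v‖ :=
            (T s).le_of_opNorm_le (hM s (abs_le.2 ⟨by linarith [hs.1], hs.2⟩)) v
          calc Real.exp (-((z + l).re * s)) * ‖T s v‖ ≤ 1 * (M * ‖v‖) :=
                mul_le_mul h1 h2 (norm_nonneg _) zero_le_one
            _ ≤ 2 * M * ‖u‖ := by nlinarith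
      _ = (2 * M * ‖u‖) ^ 2 := by simp
  have hre : ∀ n : ℤ, (2 * Real.pi * Complex.I * n : ℂ).re = 0 := by
    intro n
    simp
  -- comparison of the coefficients
  have hcomp : ∀ n : ℤ, ‖fc (lp T z x) n‖ ≤ (1 + l * N) * ‖fc (lp T (z + l) v) n‖ := by
    intro n
    have hzn : 0 ≤ (z + 2 * Real.pi * Complex.I * n).re := by
      rw [Complex.add_re, hre]; linarith
    have hzn' : 0 ≤ (z + l + 2 * Real.pi * Complex.I * n).re := by
      rw [Complex.add_re, hre]
      simp only [Complex.add_re, Complex.ofReal_re]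
      linarith
    obtain ⟨R, hR⟩ := hex _ hzn
    obtain ⟨R', hR'⟩ := hex _ hzn'
    rw [fc_lp h hR, fc_lp h hR']
    have e1 : v - Complex.exp (-(z + l)) • T 1 v = u := hv1
    rw [e1, ← hu]
    have h1 := hR.identity hR' u
    have e2 : (z + l + 2 * Real.pi * Complex.I * n) - (z + 2 * Real.pi * Complex.I * n) = (l : ℂ) := by
      ring
    rw [e2] at h1
    have h2 : R u = R' u + (l : ℂ) • R (R' u) := by rw [← h1]; abel
    rw [h2]
    refine (norm_add_le _ _).trans ?_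
    rw [norm_smul, Complex.norm_real, Real.norm_of_nonneg hl0]
    have h3 : ‖R (R' u)‖ ≤ N * ‖R' u‖ := R.le_of_opNorm_le (hN _ R hzn hR) _
    nlinarith [norm_nonneg (R' u)]
  have hsum : ∀ F : Finset ℤ, ∑ n ∈ F, ‖fc (lp T z x) n‖ ^ 2 ≤
      ((1 + l * N) * (2 * M * ‖u‖)) ^ 2 := by
    intro F
    calc ∑ n ∈ F, ‖fc (lp T z x) n‖ ^ 2 ≤
          ∑ n ∈ F, (1 + l * N) ^ 2 * ‖fc (lp T (z + l) v) n‖ ^ 2 := by
            refine Finset.sum_le_sum fun n _ => ?_
            rw [← mul_pow]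
            exact pow_le_pow_left₀ (norm_nonneg _) (hcomp n) 2
      _ = (1 + l * N) ^ 2 * ∑ n ∈ F, ‖fc (lp T (z + l) v) n‖ ^ 2 := by rw [Finset.mul_sum]
      _ ≤ (1 + l * N) ^ 2 * (2 * M * ‖u‖) ^ 2 := by
          gcongr
          exact hbes F
      _ = _ := by ring
  have hpar := parseval_le (lp_cont h z x) hsum
  have hlow : (Real.exp (-z.re) * ‖x‖ / M) ^ 2 ≤ ∫ s in (0 : ℝ)..1, ‖lp T z x s‖ ^ 2 := by
    have hc : Continuous fun s => ‖lp T z x s‖ ^ 2 := by
      have := lp_cont h z x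
      fun_prop
    calc (Real.exp (-z.re) * ‖x‖ / M) ^ 2 = ∫ s in (0 : ℝ)..1, (Real.exp (-z.re) * ‖x‖ / M) ^ 2 := by
          simp
      _ ≤ ∫ s in (0 : ℝ)..1, ‖lp T z x s‖ ^ 2 := by
          refine intervalIntegral.integral_mono_on zero_le_one intervalIntegrable_const
            (hc.intervalIntegrable _ _) fun s hs => ?_
          refine pow_le_pow_left₀ (by positivity) ?_ 2
          rw [norm_lp, mul_div_assoc]
          refine mul_le_mul (Real.exp_le_exp.2 (by nlinarith [hs.1, hs.2])) ?_ (by positivity)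
            (Real.exp_pos _).le
          rw [div_le_iff₀ (by linarith)]
          have h1 : x = T (-s) (T s x) := by
            rw [← h.add_apply, neg_add_cancel, h.zero_apply]
          calc ‖x‖ = ‖T (-s) (T s x)‖ := by rw [← h1]
            _ ≤ M * ‖T s x‖ := (T (-s)).le_of_opNorm_le
                (hM _ (by rw [abs_neg]; exact abs_le.2 ⟨by linarith [hs.1], hs.2⟩)) _
            _ = _ := mul_comm _ _
  have hfin : Real.exp (-z.re) * ‖x‖ / M ≤ (1 + l * N) * (2 * M * ‖u‖) :=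
    abs_le_of_sq_le_sq' (hlow.trans hpar) (by positivity) |>.2
  rw [div_le_iff₀ (by linarith)] at hfin
  calc Real.exp (-z.re) * ‖x‖ ≤ (1 + l * N) * (2 * M * ‖u‖) * M := hfin
    _ = _ := by ring

end Pool.Agent.X136.GB
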