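import Pool.Agent.X136.GB.Defs

/-!
The Laplace transform of a group is the resolvent of its generator to the right of the growth bound.
-/

set_option autoImplicit false

namespace Pool.Agent.X136.GB

open Filter Topology MeasureTheory Set

variable {E : Type*} [NormedAddCommGroup E] [InnerProductSpace ℂ E] [CompleteSpace E]
variable {T : ℝ → E →L[ℂ] E}

omit [CompleteSpace E] in
theorem norm_lp (z : ℂ) (y : E) (s : ℝ) : ‖lp T z y s‖ = Real.exp (-(z.re * s)) * ‖T s y‖ := by
  unfold lp
  rw [norm_smul, Complex.norm_exp]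
  congr 2
  simp

theorem T_tr (h : IsC0Group T) (z : ℂ) (y : E) (τ r : ℝ) :
    T r (tr T z y τ) = Complex.exp (z * r) • (tr T z y (τ + r) - tr T z y r) := by
  have h1 : ∀ s : ℝ, T r (lp T z y s) = Complex.exp (z * r) • lp T z y (s + r) := by
    intro s
    unfold lp
    rw [map_smul, smul_smul, ← Complex.exp_add, add_comm s r, h.add_apply]
    congr 2
    push_cast
    ring
  have h2 : T r (tr T z y τ) = ∫ s in (0 : ℝ)..τ, T r (lp T z y s) := by
    unfold tr
    exact ((T r).intervalIntegral_comp_comm ((lp_cont h z y).intervalIntegrable _ _)).symm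
  rw [h2]
  simp only [h1]
  rw [intervalIntegral.integral_smul, intervalIntegral.integral_comp_add_right, zero_add]
  congr 1
  unfold tr
  rw [intervalIntegral.integral_interval_sub_left ((lp_cont h z y).intervalIntegrable _ _)
    ((lp_cont h z y).intervalIntegrable _ _)]

theorem tr_deriv (h : IsC0Group T) (z : ℂ) (y : E) (t : ℝ) :
    HasDerivAt (tr T z y) (lp T z y t) t :=
  intervalIntegral.integral_hasDerivAt_right ((lp_cont h z y).intervalIntegrable _ _)
    ((lp_cont h z y).stronglyMeasurableAtFilter _ _) (lp_cont h z y).continuousAt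

theorem laplace (h : IsC0Group T) {a C : ℝ} (hC : ∀ t, 0 ≤ t → ‖T t‖ ≤ C * Real.exp (a * t))
    {z : ℂ} (hz : a < z.re) :
    ∃ R : E →L[ℂ] E, IsResolvent T z R ∧ ∀ y, Tendsto (tr T z y) atTop (𝓝 (R y)) := by
  have hb : 0 < z.re - a := by linarith
  have hC0 : 0 ≤ C := by
    have := (norm_nonneg _).trans (hC 0 le_rfl)
    simpa using this
  have h1 : ∀ (y : E) (s : ℝ), 0 ≤ s →
      ‖lp T z y s‖ ≤ C * ‖y‖ * Real.exp (-(z.re - a) * s) := by
    intro y s hs
    rw [norm_lp]
    have h2 : ‖T s y‖ ≤ C * Real.exp (a * s) * ‖y‖ := (T s).le_of_opNorm_le (hC s hs) y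
    calc Real.exp (-(z.re * s)) * ‖T s y‖ ≤ Real.exp (-(z.re * s)) * (C * Real.exp (a * s) * ‖y‖) := by
          gcongr
      _ = C * ‖y‖ * (Real.exp (-(z.re * s)) * Real.exp (a * s)) := by ring
      _ = C * ‖y‖ * Real.exp (-(z.re - a) * s) := by
          rw [← Real.exp_add]; congr 2; ring
  have hI0 : IntegrableOn (fun s : ℝ => Real.exp (-(z.re - a) * s)) (Ioi 0) :=
    exp_neg_integrableOn_Ioi 0 hb
  have hI : ∀ y : E, IntegrableOn (lp T z y) (Ioi 0) := by
    intro y
    refine Integrable.mono' (hI0.const_mul (C * ‖y‖))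
      ((lp_cont h z y).aestronglyMeasurable) ?_
    exact (ae_restrict_iff' measurableSet_Ioi).2 (Eventually.of_forall fun s hs => h1 y s (le_of_lt hs))
  let L : E →ₗ[ℂ] E :=
    { toFun := fun y => ∫ s in Ioi (0 : ℝ), lp T z y s
      map_add' := fun x y => by
        rw [← integral_add (hI x) (hI y)]
        congr 1
        ext s
        change Complex.exp _ • T s (x + y) = Complex.exp _ • T s x + Complex.exp _ • T s y
        rw [map_add, smul_add]
      map_smul' := fun c y => by
        rw [RingHom.id_apply, ← integral_smul]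
        congr 1
        ext s
        change Complex.exp _ • T s (c • y) = c • (Complex.exp _ • T s y)
        rw [map_smul, smul_comm] }
  let R : E →L[ℂ] E := L.mkContinuous (C * ∫ s in Ioi (0 : ℝ), Real.exp (-(z.re - a) * s)) (by
    intro y
    change ‖∫ s in Ioi (0 : ℝ), lp T z y s‖ ≤ _
    calc ‖∫ s in Ioi (0 : ℝ), lp T z y s‖ ≤ ∫ s in Ioi (0 : ℝ), C * ‖y‖ * Real.exp (-(z.re - a) * s) :=
          norm_integral_le_of_norm_le (hI0.const_mul _)
            ((ae_restrict_iff' measurableSet_Ioi).2
              (Eventually.of_forall fun s hs => h1 y s (le_of_lt hs)))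
      _ = (C * ∫ s in Ioi (0 : ℝ), Real.exp (-(z.re - a) * s)) * ‖y‖ := by
          rw [integral_const_mul]; ring)
  have hR : ∀ y, R y = ∫ s in Ioi (0 : ℝ), lp T z y s := fun y => rfl
  have hlim : ∀ y, Tendsto (tr T z y) atTop (𝓝 (R y)) := by
    intro y
    rw [hR]
    exact intervalIntegral_tendsto_integral_Ioi 0 (hI y) tendsto_id
  refine ⟨R, ⟨fun y => ?_, fun x y g => ?_⟩, hlim⟩
  · have h3 : ∀ r : ℝ, T r (R y) = Complex.exp (z * r) • (R y - tr T z y r) := by
      intro r
      have h4 : Tendsto (fun τ => T r (tr T z y τ)) atTop (𝓝 (T r (R y))) :=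
        ((T r).continuous.tendsto _).comp (hlim y)
      have h5 : Tendsto (fun τ => Complex.exp (z * r) • (tr T z y (τ + r) - tr T z y r)) atTop
          (𝓝 (Complex.exp (z * r) • (R y - tr T z y r))) :=
        (((hlim y).comp (tendsto_atTop_add_const_right _ r tendsto_id)).sub_const _).const_smul _
      refine tendsto_nhds_unique h4 (h5.congr fun τ => ?_)
      exact (T_tr h z y τ r).symm
    have h6 : HasDerivAt (fun r : ℝ => Complex.exp (z * r)) (Complex.exp (z * (0 : ℝ)) * z) 0 := by
      have h7 : HasDerivAt (fun r : ℝ => z * (r : ℂ)) z 0 := by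
        have h8 := (Complex.ofRealCLM.hasDerivAt (x := (0 : ℝ))).const_mul z
        simp only [Complex.ofRealCLM_apply, Complex.ofReal_one, mul_one] at h8
        exact h8
      exact h7.cexp
    have h9 := h6.smul ((tr_deriv h z y 0).const_sub (R y))
    have e0 : tr T z y 0 = 0 := by unfold tr; simp
    have e1 : lp T z y 0 = y := by unfold lp; simp [h.zero_apply]
    rw [e0, e1] at h9
    simp only [Complex.ofReal_zero, mul_zero, Complex.exp_zero, one_smul, one_mul, sub_zero] at h9
    unfold Gen
    have e2 : z • R y - y = -y + z • R y := by abel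
    rw [e2]
    refine h9.congr_of_eventuallyEq (Eventually.of_forall fun r => ?_)
    exact h3 r
  · have h3 : ∀ t : ℝ, tr T z (z • x - y) t = x - lp T z x t := by
      intro t
      have h4 : ∀ s : ℝ, HasDerivAt (fun s => -lp T z x s) (lp T z (z • x - y) s) s := by
        intro s
        have h5 := (lp_deriv h g z s).neg
        rwa [neg_neg] at h5
      have h6 := intervalIntegral.integral_eq_sub_of_hasDerivAt (a := 0) (b := t)
        (fun s _ => h4 s) ((lp_cont h z _).intervalIntegrable _ _)
      rw [tr, h6]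
      simp only [lp, Complex.ofReal_zero, mul_zero, neg_zero, Complex.exp_zero, one_smul,
        h.zero_apply]
      abel
    have h7 : Tendsto (fun t => lp T z x t) atTop (𝓝 0) := by
      have h8 : Tendsto (fun s : ℝ => C * ‖x‖ * Real.exp (-(z.re - a) * s)) atTop (𝓝 0) := by
        have h9 : Tendsto (fun s : ℝ => Real.exp (-(z.re - a) * s)) atTop (𝓝 0) := by
          refine Real.tendsto_exp_atBot.comp ?_
          exact tendsto_id.const_mul_atTop_of_neg (by linarith)
        simpa using h9.const_mul (C * ‖x‖)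
      refine squeeze_zero_norm' ?_ h8
      filter_upwards [eventually_ge_atTop 0] with s hs using h1 x s hs
    have h8 : Tendsto (fun t => x - lp T z x t) atTop (𝓝 x) := by
      simpa using h7.const_sub x
    exact tendsto_nhds_unique (hlim _) (h8.congr fun t => (h3 t).symm)

end Pool.Agent.X136.GB
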