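import Pool.Agent.X136.GB.Spec

/-!
Spectral bound and growth bound of positive groups on ordered Hilbert spaces.
-/

set_option autoImplicit false

namespace Pool.Agent.X136.GB

open Filter Topology MeasureTheory Set

section Rescale

variable {E : Type*} [NormedAddCommGroup E] [InnerProductSpace ℂ E]
variable {T : ℝ → E →L[ℂ] E}

/-- the rescaled group -/
noncomputable def resc (T : ℝ → E →L[ℂ] E) (w : ℝ) (t : ℝ) : E →L[ℂ] E :=
  (Real.exp (-(w * t)) : ℂ) • T t

theorem resc_group (h : IsC0Group T) (w : ℝ) : IsC0Group (resc T w) where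
  zero := by simp [resc, h.zero]
  add s t := by
    unfold resc
    rw [h.add, smul_mul_smul_comm, ← Complex.ofReal_mul, ← Real.exp_add]
    congr 3
    ring
  cont x := by
    have := h.cont x
    have h2 : (fun t => resc T w t x) = fun t => (Real.exp (-(w * t)) : ℂ) • T t x := rfl
    rw [h2]
    fun_prop

theorem resc_neg (w : ℝ) : resc (resc T w) (-w) = T := by
  ext t x
  change (Real.exp (-(-w * t)) : ℂ) • ((Real.exp (-(w * t)) : ℂ) • T t x) = T t x
  rw [smul_smul, ← Complex.ofReal_mul, ← Real.exp_add]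
  have : -(-w * t) + -(w * t) = 0 := by ring
  rw [this]
  simp

theorem resc_gen (h : IsC0Group T) {x y : E} (g : Gen T x y) (w : ℝ) :
    Gen (resc T w) x (y - (w : ℂ) • x) := by
  unfold Gen at g ⊢
  have h1 : HasDerivAt (fun t : ℝ => (Real.exp (-(w * t)) : ℂ))
      ((Real.exp (-(w * 0)) * (-(w * 1)) : ℝ) : ℂ) 0 := by
    have h2 : HasDerivAt (fun t : ℝ => Real.exp (-(w * t))) (Real.exp (-(w * 0)) * (-(w * 1))) 0 :=
      (((hasDerivAt_id (0 : ℝ)).const_mul w).neg).exp
    exact h2.ofReal_comp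
  have h3 := h1.smul g
  have e : y - (w : ℂ) • x =
      (Real.exp (-(w * 0)) : ℂ) • y + ((Real.exp (-(w * 0)) * (-(w * 1)) : ℝ) : ℂ) • T 0 x := by
    rw [h.zero_apply]
    simp [sub_eq_add_neg]
  rw [e]
  exact h3

theorem resc_res (h : IsC0Group T) {z : ℂ} {w : ℝ} {R : E →L[ℂ] E}
    (hR : IsResolvent T (z + w) R) : IsResolvent (resc T w) z R := by
  refine ⟨fun y => ?_, fun x y g => ?_⟩
  · have h1 := resc_gen h (hR.1 y) w
    have e : (z + w) • R y - y - (w : ℂ) • R y = z • R y - y := by module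
    rwa [e] at h1
  · have h1 := resc_gen (resc_group h w) g (-w)
    rw [resc_neg] at h1
    have h2 := hR.2 _ _ h1
    have e : (z + w) • x - (y - ((-w : ℝ) : ℂ) • x) = z • x - y := by push_cast; module
    rwa [e] at h2

theorem resc_norm (w t : ℝ) : ‖resc T w t‖ = Real.exp (-(w * t)) * ‖T t‖ := by
  unfold resc
  rw [norm_smul, Complex.norm_real, Real.norm_of_nonneg (Real.exp_pos _).le]

end Rescale

section MainE

variable {E : Type*} [NormedAddCommGroup E] [InnerProductSpace ℂ E] [CompleteSpace E]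
variable {T : ℝ → E →L[ℂ] E}

omit [CompleteSpace E] in
theorem norm_pos' [Nontrivial E] (h : IsC0Group T) (t : ℝ) : 0 < ‖T t‖ := by
  obtain ⟨x, hx⟩ := exists_ne (0 : E)
  refine norm_pos_iff.2 fun h0 => hx ?_
  have : T (-t) (T t x) = x := by rw [← h.add_apply, neg_add_cancel, h.zero_apply]
  rw [← this, h0]
  simp

theorem spec_le [Nontrivial E] (h : IsC0Group T) {z : ℂ} (hz : z ∈ genSpectrum T) {t : ℝ}
    (ht : 0 < t) : z.re ≤ Real.log ‖T t‖ / t := by
  by_contra hc
  rw [not_le] at hc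
  set a : ℝ := Real.log ‖T t‖ / t with ha
  have h1 : ‖T t‖ ≤ Real.exp (a * t) := by
    rw [ha, div_mul_cancel₀ _ ht.ne', Real.exp_log (norm_pos' h t)]
  obtain ⟨C, -, hC⟩ := h.growth ht h1
  obtain ⟨R, hR, -⟩ := laplace h hC hc
  exact hz ⟨R, hR⟩

theorem upper [Nontrivial E] (h : IsC0Group T) {K : Set E} {ρ σ : E →L[ℝ] E} {c : ℝ}
    (hK : IsPosCone K ρ σ c) (hT : ∀ t, ∀ v ∈ K, T t v ∈ K) {w : ℝ}
    (hw : ∀ z ∈ genSpectrum T, z.re < w) {b : ℝ} (hb : w < b) :
    ∀ᶠ t : ℝ in atTop, Real.log ‖T t‖ / t < b := by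
  have h' := resc_group h w
  have hT' : ∀ t, ∀ v ∈ K, resc T w t v ∈ K := by
    intro t v hv
    have := hK.cone.smul _ (Real.exp_pos (-(w * t))).le _ (hT t v hv)
    rw [← Complex.coe_smul] at this
    exact this
  have hex : ∀ z : ℂ, 0 ≤ z.re → ∃ R : E →L[ℂ] E, IsResolvent (resc T w) z R := by
    intro z hz
    by_contra hcon
    have h1 : z + w ∈ genSpectrum T := fun ⟨R, hR⟩ => hcon ⟨R, resc_res h hR⟩
    have h2 := hw _ h1
    simp only [Complex.add_re, Complex.ofReal_re] at h2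
    linarith
  set ε : ℝ := (b - w) / 2 with hε
  have hε0 : 0 < ε := by rw [hε]; linarith
  obtain ⟨n, hn1, hn⟩ := growth_of h' hex (res_bound h' hK hT' hex) ε hε0
  have hn0 : (0 : ℝ) < n := by exact_mod_cast hn1
  obtain ⟨C, hC0, hC⟩ := h'.growth hn0 hn
  have h1 : ∀ t : ℝ, 0 < t → Real.log ‖T t‖ / t ≤ Real.log C / t + (w + ε) := by
    intro t ht
    have h2 := hC t ht.le
    rw [resc_norm] at h2
    have h3 : ‖T t‖ ≤ C * Real.exp ((w + ε) * t) := by
      have e1 : Real.exp (w * t) * Real.exp (-(w * t)) = 1 := by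
        rw [← Real.exp_add]; simp
      calc ‖T t‖ = Real.exp (w * t) * Real.exp (-(w * t)) * ‖T t‖ := by rw [e1, one_mul]
        _ = Real.exp (w * t) * (Real.exp (-(w * t)) * ‖T t‖) := by ring
        _ ≤ Real.exp (w * t) * (C * Real.exp (ε * t)) := by gcongr
        _ = C * Real.exp ((w + ε) * t) := by
            rw [add_mul, Real.exp_add]; ring
    have h4 : Real.log ‖T t‖ ≤ Real.log C + (w + ε) * t := by
      calc Real.log ‖T t‖ ≤ Real.log (C * Real.exp ((w + ε) * t)) :=
            Real.log_le_log (norm_pos' h t) h3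
        _ = _ := by rw [Real.log_mul hC0.ne' (Real.exp_pos _).ne', Real.log_exp]
    rw [div_add' _ _ _ ht.ne']
    exact div_le_div_of_nonneg_right h4 ht.le
  have h2 : Tendsto (fun t : ℝ => Real.log C / t + (w + ε)) atTop (𝓝 (0 + (w + ε))) :=
    (tendsto_const_nhds.div_atTop tendsto_id).add_const _
  have h3 : 0 + (w + ε) < b := by rw [hε]; linarith
  filter_upwards [h2.eventually_lt_const h3, eventually_gt_atTop 0] with t ht1 ht2
  exact (h1 t ht2).trans_lt ht1

omit [CompleteSpace E] in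
theorem reverse (h : IsC0Group T) : IsC0Group fun t => T (-t) where
  zero := by simp [h.zero]
  add s t := by

    rw [neg_add, h.add]
  cont x := (h.cont x).comp continuous_neg

/-- **The spectral bound is the growth bound.** -/
theorem main_E [Nontrivial E] (h : IsC0Group T) {K : Set E} {ρ σ : E →L[ℝ] E} {c : ℝ}
    (hK : IsPosCone K ρ σ c) (hT : ∀ t, ∀ v ∈ K, T t v ∈ K) :
    (genSpectrum T).Nonempty ∧ BddAbove (Complex.re '' genSpectrum T) ∧
      Tendsto (fun t : ℝ => Real.log ‖T t‖ / t) atTop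
        (𝓝 (sSup (Complex.re '' genSpectrum T))) := by
  have hne : (genSpectrum T).Nonempty := by
    rw [Set.nonempty_iff_ne_empty]
    intro hemp
    obtain ⟨a, C, hC0, hC⟩ := (reverse h).growth0
    have h1 := upper h hK hT (w := -a - 2) (b := -a - 1) (by rw [hemp]; simp) (by linarith)
    have h2 : ∀ t : ℝ, 0 < t → -a - Real.log C / t ≤ Real.log ‖T t‖ / t := by
      intro t ht
      have h3 : 1 ≤ ‖T t‖ * (C * Real.exp (a * t)) := by
        obtain ⟨x, hx⟩ := exists_ne (0 : E)
        have hx0 : 0 < ‖x‖ := norm_pos_iff.2 hx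
        have e : T t (T (-t) x) = x := by rw [← h.add_apply, add_neg_cancel, h.zero_apply]
        have h4 : ‖x‖ ≤ ‖T t‖ * (C * Real.exp (a * t)) * ‖x‖ := by
          calc ‖x‖ = ‖T t (T (-t) x)‖ := by rw [e]
            _ ≤ ‖T t‖ * ‖T (-t) x‖ := (T t).le_opNorm _
            _ ≤ ‖T t‖ * (C * Real.exp (a * t) * ‖x‖) := by
                gcongr
                exact (T (-t)).le_of_opNorm_le (hC t ht.le) x
            _ = _ := by ring
        by_contra hcon
        rw [not_le] at hcon
        nlinarith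
      have h5 : 0 ≤ Real.log ‖T t‖ + (Real.log C + a * t) := by
        have h6 := Real.log_nonneg h3
        rwa [Real.log_mul (norm_pos' h t).ne' (by positivity),
          Real.log_mul hC0.ne' (Real.exp_pos _).ne', Real.log_exp] at h6
      rw [le_div_iff₀ ht, sub_mul, div_mul_cancel₀ _ ht.ne']
      linarith
    have h3 : Tendsto (fun t : ℝ => -a - Real.log C / t) atTop (𝓝 (-a - 0)) :=
      (tendsto_const_nhds.div_atTop tendsto_id).const_sub _
    have h4 : -a - 1 < -a - 0 := by linarith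
    obtain ⟨t, ⟨ht1, ht2⟩, ht3⟩ := ((h1.and (h3.eventually_const_lt h4)).and
      (eventually_gt_atTop 0)).exists
    linarith [h2 t ht3]
  have hbdd : BddAbove (Complex.re '' genSpectrum T) := by
    refine ⟨Real.log ‖T 1‖ / 1, ?_⟩
    rintro _ ⟨z, hz, rfl⟩
    exact spec_le h hz one_pos
  refine ⟨hne, hbdd, ?_⟩
  refine tendsto_order.2 ⟨fun a ha => ?_, fun b hb => ?_⟩
  · filter_upwards [eventually_gt_atTop 0] with t ht
    refine ha.trans_le (csSup_le (hne.image _) ?_)
    rintro _ ⟨z, hz, rfl⟩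
    exact spec_le h hz ht
  · obtain ⟨w, hw1, hw2⟩ := exists_between hb
    refine upper h hK hT (fun z hz => ?_) hw2
    exact (le_csSup hbdd ⟨z, hz, rfl⟩).trans_lt hw1

end MainE

end Pool.Agent.X136.GB
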