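import Pool.Agent.X136.GB.Lap

/-!
Positive groups: the resolvent is positive on the real axis to the right of the spectral bound and
bounded on every closed half plane there.
-/

set_option autoImplicit false

namespace Pool.Agent.X136.GB

open Filter Topology MeasureTheory Set

variable {E : Type*} [NormedAddCommGroup E] [InnerProductSpace ℂ E]
variable {T : ℝ → E →L[ℂ] E}

/-- the resolvent identity -/
theorem IsResolvent.identity {z w : ℂ} {R S : E →L[ℂ] E} (hR : IsResolvent T z R)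
    (hS : IsResolvent T w S) (y : E) : R y - S y = (w - z) • R (S y) := by
  have h1 := hR.2 _ _ (hS.1 y)
  have e : z • S y - (w • S y - y) = y - (w - z) • S y := by module
  rw [e, map_sub, map_smul] at h1
  rw [← h1]
  have h2 : R (R y - (w - z) • R (S y)) = R (S y) := by rw [h1]
  simp only [map_sub, map_smul]
  rw [map_sub, map_smul] at h2
  have h3 : R y - (w - z) • R (S y) = S y := h1
  rw [sub_sub_cancel]
  rw [h2]

/-- existence of the resolvent near a point of the resolvent set -/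
theorem IsResolvent.near [CompleteSpace E] {z h : ℂ} {R : E →L[ℂ] E} (hR : IsResolvent T z R)
    (hh : ‖h‖ * ‖R‖ < 1) : ∃ R' : E →L[ℂ] E, IsResolvent T (z - h) R' := by
  have h1 : ‖h • R‖ < 1 := by rwa [norm_smul]
  obtain ⟨U, hU⟩ : IsUnit (1 - h • R) := isUnit_one_sub_of_norm_lt_one h1
  have ha : ∀ y, (↑U⁻¹ : E →L[ℂ] E) y - h • R ((↑U⁻¹ : E →L[ℂ] E) y) = y := by
    intro y
    have h2 : (↑U : E →L[ℂ] E) * (↑U⁻¹ : E →L[ℂ] E) = 1 := U.mul_inv
    rw [hU] at h2
    have h3 := congrArg (fun A : E →L[ℂ] E => A y) h2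
    simpa using h3
  have hb : ∀ y, (↑U⁻¹ : E →L[ℂ] E) (y - h • R y) = y := by
    intro y
    have h2 : (↑U⁻¹ : E →L[ℂ] E) * (↑U : E →L[ℂ] E) = 1 := U.inv_mul
    rw [hU] at h2
    have h3 := congrArg (fun A : E →L[ℂ] E => A y) h2
    simpa using h3
  refine ⟨R * (↑U⁻¹ : E →L[ℂ] E), fun y => ?_, fun x y g => ?_⟩
  · have h2 := hR.1 ((↑U⁻¹ : E →L[ℂ] E) y)
    have e : (z - h) • (R * (↑U⁻¹ : E →L[ℂ] E)) y - y =
        z • R ((↑U⁻¹ : E →L[ℂ] E) y) - (↑U⁻¹ : E →L[ℂ] E) y := by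
      change (z - h) • R ((↑U⁻¹ : E →L[ℂ] E) y) - y = _
      have := ha y
      nth_rw 2 [← this]
      module
    rw [e]
    exact h2
  · have h2 := hR.2 x y g
    change R ((↑U⁻¹ : E →L[ℂ] E) ((z - h) • x - y)) = x
    have e : (z - h) • x - y = (z • x - y) - h • R (z • x - y) := by
      rw [h2]; module
    rw [e, hb, h2]

theorem IsResolvent.near_norm {z w : ℂ} {R S : E →L[ℂ] E} (hR : IsResolvent T z R)
    (hS : IsResolvent T w S) (hh : ‖w - z‖ * ‖R‖ ≤ 1 / 2) :
    ‖S‖ ≤ 2 * ‖R‖ ∧ ‖R - S‖ ≤ ‖w - z‖ * (2 * ‖R‖ ^ 2) := by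
  have e : R - S = (w - z) • (R * S) := by
    ext y
    exact hR.identity hS y
  have h1 : ‖R - S‖ ≤ ‖w - z‖ * (‖R‖ * ‖S‖) := by
    rw [e, norm_smul]
    gcongr
    exact norm_mul_le _ _
  have h2 : ‖S‖ ≤ ‖R‖ + ‖R - S‖ := by
    have : S = R - (R - S) := by abel
    calc ‖S‖ = ‖R - (R - S)‖ := by rw [← this]
      _ ≤ _ := norm_sub_le _ _
  have h3 : ‖S‖ ≤ 2 * ‖R‖ := by nlinarith [norm_nonneg S, norm_nonneg R]
  refine ⟨h3, h1.trans (mul_le_mul_of_nonneg_left ?_ (norm_nonneg _))⟩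
  calc ‖R‖ * ‖S‖ ≤ ‖R‖ * (2 * ‖R‖) := by gcongr
    _ = 2 * ‖R‖ ^ 2 := by ring

/-- a closed convex cone -/
structure IsCone (K : Set E) : Prop where
  closed : IsClosed K
  zero : (0 : E) ∈ K
  add : ∀ x ∈ K, ∀ y ∈ K, x + y ∈ K
  smul : ∀ r : ℝ, 0 ≤ r → ∀ x ∈ K, r • x ∈ K

theorem IsCone.convex {K : Set E} (hK : IsCone K) : Convex ℝ K := by
  intro x hx y hy a b ha hb _
  exact hK.add _ (hK.smul a ha x hx) _ (hK.smul b hb y hy)

theorem IsCone.integral [CompleteSpace E] {K : Set E} (hK : IsCone K) {g : ℝ → E}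
    (hg : Continuous g) {t : ℝ} (ht : 0 ≤ t) (h : ∀ s, 0 ≤ s → s ≤ t → g s ∈ K) :
    ∫ s in (0 : ℝ)..t, g s ∈ K := by
  rcases ht.eq_or_lt with rfl | ht
  · simpa using hK.zero
  rw [intervalIntegral.integral_of_le ht.le]
  have h1 : (volume (Ioc (0 : ℝ) t)) ≠ 0 := by simp [ht]
  have h2 : (volume (Ioc (0 : ℝ) t)) ≠ ⊤ := by simp
  have h3 : (⨍ s in Ioc (0 : ℝ) t, g s) ∈ K :=
    hK.convex.set_average_mem hK.closed h1 h2
      ((ae_restrict_iff' measurableSet_Ioc).2 (Eventually.of_forall fun s hs => h s hs.1.le hs.2))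
      ((hg.integrableOn_Icc).mono_set Ioc_subset_Icc_self)
  rw [setAverage_eq] at h3
  have h4 : volume.real (Ioc (0 : ℝ) t) = t := by simp [Real.volume_real_Ioc, ht.le]
  rw [h4] at h3
  have h5 := hK.smul t ht.le _ h3
  rwa [smul_smul, mul_inv_cancel₀ ht.ne', one_smul] at h5

/-- positivity passes to the left by small steps -/
theorem pos_step {K : Set E} (hK : IsCone K) {l m : ℝ} {R S : E →L[ℂ] E}
    (hR : IsResolvent T (m : ℂ) R) (hS : IsResolvent T (l : ℂ) S) (hlm : l ≤ m)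
    (hh : (m - l) * ‖R‖ ≤ 1 / 2) (hp : ∀ v ∈ K, R v ∈ K) : ∀ v ∈ K, S v ∈ K := by
  intro v hv
  set B : E →L[ℂ] E := ((m - l : ℝ) : ℂ) • R with hB
  have hBK : ∀ u ∈ K, B u ∈ K := by
    intro u hu
    have := hK.smul (m - l) (by linarith) _ (hp u hu)
    rw [← Complex.coe_smul] at this
    exact this
  have hBn : ‖B‖ ≤ 1 / 2 := by
    rw [hB, norm_smul, Complex.norm_real, Real.norm_of_nonneg (sub_nonneg.2 hlm)]
    exact hh
  have e1 : S v = R v + B (S v) := by
    have h1 := hR.identity hS v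
    have h2 : B (S v) = -(((l : ℂ) - m) • R (S v)) := by
      rw [hB]
      change ((m - l : ℝ) : ℂ) • R (S v) = _
      push_cast
      module
    rw [h2, ← h1]
    abel
  have h3 : ∀ n : ℕ, S v - (B ^ n) (S v) ∈ K := by
    intro n
    induction n with
    | zero => simpa using hK.zero
    | succ n ih =>
      have e2 : S v - (B ^ (n + 1)) (S v) = R v + B (S v - (B ^ n) (S v)) := by
        rw [pow_succ', map_sub]
        change S v - B ((B ^ n) (S v)) = _
        nth_rw 1 [e1]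
        abel
      rw [e2]
      exact hK.add _ (hp v hv) _ (hBK _ ih)
  have h4 : Tendsto (fun n : ℕ => (B ^ n) (S v)) atTop (𝓝 0) := by
    have h5 : Tendsto (fun n : ℕ => (1 / 2 : ℝ) ^ n * ‖S v‖) atTop (𝓝 0) := by
      have := (tendsto_pow_atTop_nhds_zero_of_lt_one (r := (1 / 2 : ℝ)) (by norm_num)
        (by norm_num)).mul_const ‖S v‖
      simpa using this
    refine squeeze_zero_norm (fun n => ?_) h5
    induction n with
    | zero => simp
    | succ n ih =>
      rw [pow_succ']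
      change ‖B ((B ^ n) (S v))‖ ≤ _
      calc ‖B ((B ^ n) (S v))‖ ≤ ‖B‖ * ‖(B ^ n) (S v)‖ := B.le_opNorm _
        _ ≤ 1 / 2 * ((1 / 2) ^ n * ‖S v‖) := by gcongr
        _ = _ := by rw [pow_succ']; ring
  have h6 : Tendsto (fun n : ℕ => S v - (B ^ n) (S v)) atTop (𝓝 (S v)) := by
    simpa using h4.const_sub (S v)
  exact hK.closed.mem_of_tendsto h6 (Eventually.of_forall h3)

/-- The resolvent is positive on the positive real axis. -/
theorem pos_resolvent [CompleteSpace E] (h : IsC0Group T) {K : Set E} (hK : IsCone K)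
    (hT : ∀ t, ∀ v ∈ K, T t v ∈ K)
    (hex : ∀ l : ℝ, 0 ≤ l → ∃ R : E →L[ℂ] E, IsResolvent T (l : ℂ) R)
    (l : ℝ) (hl : 0 ≤ l) (R : E →L[ℂ] E) (hR : IsResolvent T (l : ℂ) R) :
    ∀ v ∈ K, R v ∈ K := by
  classical
  choose Q hQ using hex
  obtain ⟨a, C, hC0, hC⟩ := h.growth0
  set L : ℝ := max 0 (a + 1) with hL
  have hL0 : 0 ≤ L := le_max_left _ _
  -- positivity to the right of `L`
  have hbig : ∀ (m : ℝ) (hm : 0 ≤ m), L ≤ m → ∀ v ∈ K, Q m hm v ∈ K := by
    intro m hm hLm v hv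
    have ham : a < ((m : ℝ) : ℂ).re := by
      have : a + 1 ≤ m := (le_max_right _ _).trans hLm
      simp only [Complex.ofReal_re]
      linarith
    obtain ⟨R', hR', hlim⟩ := laplace h hC ham
    rw [(hQ m hm).unique hR']
    refine hK.closed.mem_of_tendsto (hlim v) ?_
    filter_upwards [eventually_ge_atTop 0] with τ hτ
    refine hK.integral (lp_cont h _ _) hτ fun s _ _ => ?_
    have e : lp T (m : ℂ) v s = Real.exp (-(m * s)) • T s v := by
      unfold lp
      rw [← Complex.coe_smul, Complex.ofReal_exp]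
      push_cast
      rfl
    rw [e]
    exact hK.smul _ (Real.exp_pos _).le _ (hT s v hv)
  -- local boundedness
  have hcont : ∃ B : ℝ, 0 ≤ B ∧ ∀ (m : ℝ) (hm : 0 ≤ m), m ≤ L → ‖Q m hm‖ ≤ B := by
    let F : ℝ → E →L[ℂ] E := fun m => if hm : 0 ≤ m then Q m hm else 0
    have hF : ContinuousOn F (Icc 0 L) := by
      intro m hm
      have hm0 : 0 ≤ m := hm.1
      have hFm : F m = Q m hm0 := by simp [F, hm0]
      rw [ContinuousWithinAt, tendsto_iff_norm_sub_tendsto_zero]
      have h1 : Tendsto (fun x : ℝ => |x - m| * (2 * ‖Q m hm0‖ ^ 2)) (𝓝[Icc 0 L] m) (𝓝 0) := by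
        have h2 : Tendsto (fun x : ℝ => |x - m| * (2 * ‖Q m hm0‖ ^ 2)) (𝓝 m)
            (𝓝 (|m - m| * (2 * ‖Q m hm0‖ ^ 2))) := by
          apply Continuous.tendsto
          fun_prop
        rw [sub_self, abs_zero, zero_mul] at h2
        exact h2.mono_left nhdsWithin_le_nhds
      have h3 : ∀ᶠ x in 𝓝[Icc 0 L] m, |x - m| * ‖Q m hm0‖ ≤ 1 / 2 := by
        have h2 : Tendsto (fun x : ℝ => |x - m| * ‖Q m hm0‖) (𝓝 m)
            (𝓝 (|m - m| * ‖Q m hm0‖)) := by
          apply Continuous.tendsto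
          fun_prop
        rw [sub_self, abs_zero, zero_mul] at h2
        exact (h2.mono_left nhdsWithin_le_nhds).eventually_le_const (by norm_num)
      refine squeeze_zero' (Eventually.of_forall fun x => norm_nonneg _) ?_ h1
      filter_upwards [h3, self_mem_nhdsWithin] with x hx hxm
      have hx0 : 0 ≤ x := hxm.1
      have hFx : F x = Q x hx0 := by simp [F, hx0]
      rw [hFx, hFm, norm_sub_rev]
      have e : ‖((x : ℝ) : ℂ) - m‖ = |x - m| := by
        rw [← Complex.ofReal_sub, Complex.norm_real, Real.norm_eq_abs]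
      have h4 := ((hQ m hm0).near_norm (hQ x hx0) (by rw [e]; exact hx)).2
      rwa [e] at h4
    obtain ⟨B, hB⟩ := isCompact_Icc.exists_bound_of_continuousOn hF
    refine ⟨max B 0, le_max_right _ _, fun m hm hmL => ?_⟩
    have := hB m ⟨hm, hmL⟩
    simp only [F, hm, dite_true] at this
    exact this.trans (le_max_left _ _)
  obtain ⟨B, hB0, hB⟩ := hcont
  set δ : ℝ := 1 / (2 * B + 1) with hδ
  have hδ0 : 0 < δ := by positivity
  have hδB : δ * B ≤ 1 / 2 := by
    rw [hδ, div_mul_eq_mul_div, div_le_div_iff₀ (by positivity) (by norm_num)]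
    linarith
  have hstep : ∀ k : ℕ, ∀ (m : ℝ) (hm : 0 ≤ m), L - k * δ ≤ m → ∀ v ∈ K, Q m hm v ∈ K := by
    intro k
    induction k with
    | zero => intro m hm hLm; exact hbig m hm (by simpa using hLm)
    | succ k ih =>
      intro m hm hLm
      by_cases hc : L - k * δ ≤ m
      · exact ih m hm hc
      rw [not_le] at hc
      have hmL : m ≤ L := by
        have : (0 : ℝ) ≤ k * δ := by positivity
        linarith
      set m' : ℝ := min (m + δ) L with hm'
      have h1 : m ≤ m' := le_min (by linarith) hmL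
      have h2 : 0 ≤ m' := hm.trans h1
      have h3 : m' - m ≤ δ := by
        have := min_le_left (m + δ) L
        linarith
      have h4 : L - k * δ ≤ m' := by
        refine le_min ?_ ?_
        · push_cast at hLm; linarith
        · have : (0 : ℝ) ≤ k * δ := by positivity
          linarith
      refine pos_step hK (hQ m' h2) (hQ m hm) h1 ?_ (ih m' h2 h4)
      calc (m' - m) * ‖Q m' h2‖ ≤ δ * B :=
            mul_le_mul h3 (hB m' h2 (min_le_right _ _)) (norm_nonneg _) hδ0.le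
        _ ≤ 1 / 2 := hδB
  obtain ⟨k, hk⟩ := exists_nat_ge (L / δ)
  rw [hR.unique (hQ l hl)]
  refine hstep k l hl ?_
  rw [div_le_iff₀ hδ0] at hk
  linarith

end Pool.Agent.X136.GB
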