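import Pool.Agent.X136.GB.Key

/-!
The spectral radius of `T 1` and the growth of the group.
-/

set_option autoImplicit false

namespace Pool.Agent.X136.GB

open Filter Topology MeasureTheory Set

variable {E : Type*} [NormedAddCommGroup E] [InnerProductSpace ℂ E] [CompleteSpace E]
variable {T : ℝ → E →L[ℂ] E}

/-- uniform lower bound on the closed unit disc -/
theorem lower_all (h : IsC0Group T)
    (hex : ∀ z : ℂ, 0 ≤ z.re → ∃ R : E →L[ℂ] E, IsResolvent T z R)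
    (hN : ∃ N : ℝ, ∀ (z : ℂ) (R : E →L[ℂ] E), 0 ≤ z.re → IsResolvent T z R → ‖R‖ ≤ N) :
    ∃ C : ℝ, 0 < C ∧ ∀ w : ℂ, ‖w‖ ≤ 1 → ∀ x, ‖x‖ ≤ C * ‖x - w • T 1 x‖ := by
  obtain ⟨N, hN⟩ := hN
  obtain ⟨M, hM1, hM⟩ := h.local_bound 1
  have hN0 : 0 ≤ N := by
    obtain ⟨R, hR⟩ := hex 0 (by simp)
    exact (norm_nonneg _).trans (hN 0 R (by simp) hR)
  set D : ℝ := 2 * M ^ 2 * (1 + 2 * ‖T 1‖ * N) with hD
  have hD0 : 0 < D := by positivity
  refine ⟨2 + D * (2 * ‖T 1‖ + 1), by positivity, fun w hw x => ?_⟩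
  have hu0 : 0 ≤ ‖x - w • T 1 x‖ := norm_nonneg _
  by_cases hc : ‖w‖ * (2 * ‖T 1‖ + 1) < 1
  · have h1 : ‖w • T 1 x‖ ≤ 1 / 2 * ‖x‖ := by
      rw [norm_smul]
      have h2 : ‖T 1 x‖ ≤ ‖T 1‖ * ‖x‖ := (T 1).le_opNorm x
      have h3 : ‖w‖ * ‖T 1‖ ≤ 1 / 2 := by nlinarith [norm_nonneg w]
      calc ‖w‖ * ‖T 1 x‖ ≤ ‖w‖ * (‖T 1‖ * ‖x‖) := by gcongr
        _ = ‖w‖ * ‖T 1‖ * ‖x‖ := by ring
        _ ≤ 1 / 2 * ‖x‖ := by gcongr
    have h4 : ‖x‖ ≤ ‖x - w • T 1 x‖ + ‖w • T 1 x‖ := by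
      calc ‖x‖ = ‖(x - w • T 1 x) + w • T 1 x‖ := by rw [sub_add_cancel]
        _ ≤ _ := norm_add_le _ _
    have h5 : ‖x‖ ≤ 2 * ‖x - w • T 1 x‖ := by linarith
    refine h5.trans (mul_le_mul_of_nonneg_right ?_ hu0)
    have : 0 ≤ D * (2 * ‖T 1‖ + 1) := by positivity
    linarith
  · rw [not_lt] at hc
    have hw0 : w ≠ 0 := by
      rintro rfl
      simp at hc
      linarith
    have hwp : 0 < ‖w‖ := norm_pos_iff.2 hw0
    set z : ℂ := -Complex.log w with hz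
    have hez : Complex.exp (-z) = w := by rw [hz, neg_neg, Complex.exp_log hw0]
    have hzr : z.re = -Real.log ‖w‖ := by rw [hz, Complex.neg_re, Complex.log_re]
    have hz0 : 0 ≤ z.re := by
      rw [hzr]
      have := Real.log_nonpos hwp.le hw
      linarith
    have h1 := lower_big h hM1 hM hex hN hz0 x
    rw [hez, hzr, neg_neg, Real.exp_log hwp, ← hD] at h1
    have h2 : ‖x‖ ≤ D * (2 * ‖T 1‖ + 1) * ‖x - w • T 1 x‖ := by
      have h3 : ‖x‖ ≤ ‖w‖ * (2 * ‖T 1‖ + 1) * ‖x‖ := by nlinarith [norm_nonneg x]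
      calc ‖x‖ ≤ ‖w‖ * (2 * ‖T 1‖ + 1) * ‖x‖ := h3
        _ = (2 * ‖T 1‖ + 1) * (‖w‖ * ‖x‖) := by ring
        _ ≤ (2 * ‖T 1‖ + 1) * (D * ‖x - w • T 1 x‖) := by gcongr
        _ = _ := by ring
    refine h2.trans (mul_le_mul_of_nonneg_right ?_ hu0)
    linarith

/-- invertibility on the closed unit disc -/
theorem unit_all {A : E →L[ℂ] E} {C : ℝ} (hC : 0 < C)
    (hl : ∀ w : ℂ, ‖w‖ ≤ 1 → ∀ x, ‖x‖ ≤ C * ‖x - w • A x‖) (w : ℂ) (hw : ‖w‖ ≤ 1) :
    IsUnit (1 - w • A) := by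
  set δ : ℝ := 1 / (2 * C * (‖A‖ + 1)) with hδ
  have hδ0 : 0 < δ := by positivity
  have hδC : C * (δ * ‖A‖) < 1 := by
    have h1 : C * (δ * ‖A‖) = ‖A‖ / (2 * (‖A‖ + 1)) := by
      rw [hδ]; field_simp
    rw [h1, div_lt_one (by positivity)]
    linarith [norm_nonneg A]
  have key : ∀ k : ℕ, ∀ w : ℂ, ‖w‖ ≤ 1 → ‖w‖ ≤ k * δ → IsUnit (1 - w • A) := by
    intro k
    induction k with
    | zero =>
      intro w _ h2
      have : w = 0 := by
        have : ‖w‖ ≤ 0 := by simpa using h2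
        exact norm_le_zero_iff.1 this
      simp [this]
    | succ k ih =>
      intro w h1 h2
      set r : ℝ := k / (k + 1) with hr
      have hr0 : 0 ≤ r := by positivity
      have hr1 : r ≤ 1 := by rw [hr, div_le_one (by positivity)]; linarith
      set w₀ : ℂ := (r : ℂ) * w with hw₀
      have hn0 : ‖w₀‖ = r * ‖w‖ := by
        rw [hw₀, norm_mul, Complex.norm_real, Real.norm_of_nonneg hr0]
      have h3 : ‖w₀‖ ≤ 1 := by rw [hn0]; nlinarith [norm_nonneg w]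
      have h4 : ‖w₀‖ ≤ k * δ := by
        rw [hn0, hr]
        push_cast at h2
        calc (k : ℝ) / (k + 1) * ‖w‖ ≤ k / (k + 1) * ((k + 1) * δ) := by gcongr
          _ = k * δ := by field_simp
      have h5 : ‖w - w₀‖ ≤ δ := by
        have e : w - w₀ = ((1 - r : ℝ) : ℂ) * w := by rw [hw₀]; push_cast; ring
        rw [e, norm_mul, Complex.norm_real, Real.norm_of_nonneg (by linarith)]
        push_cast at h2
        have e2 : 1 - r = 1 / (k + 1) := by rw [hr]; field_simp; ring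
        rw [e2]
        calc 1 / ((k : ℝ) + 1) * ‖w‖ ≤ 1 / (k + 1) * ((k + 1) * δ) := by gcongr
          _ = δ := by field_simp
      obtain ⟨U, hU⟩ := ih w₀ h3 h4
      have hinv : ‖(↑U⁻¹ : E →L[ℂ] E)‖ ≤ C := by
        refine ContinuousLinearMap.opNorm_le_bound _ hC.le fun y => ?_
        have h6 := hl w₀ h3 ((↑U⁻¹ : E →L[ℂ] E) y)
        have h7 : (↑U⁻¹ : E →L[ℂ] E) y - w₀ • A ((↑U⁻¹ : E →L[ℂ] E) y) = y := by
          have h2 : (↑U : E →L[ℂ] E) * (↑U⁻¹ : E →L[ℂ] E) = 1 := U.mul_inv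
          rw [hU] at h2
          have h3 := congrArg (fun A : E →L[ℂ] E => A y) h2
          simpa using h3
        rwa [h7] at h6
      have h8 : ‖(↑U⁻¹ : E →L[ℂ] E) * ((w - w₀) • A)‖ < 1 := by
        calc ‖(↑U⁻¹ : E →L[ℂ] E) * ((w - w₀) • A)‖ ≤ ‖(↑U⁻¹ : E →L[ℂ] E)‖ * ‖(w - w₀) • A‖ :=
              norm_mul_le _ _
          _ ≤ C * (δ * ‖A‖) := by
              rw [norm_smul]
              gcongr
          _ < 1 := hδC
      have h9 := U.isUnit.mul (isUnit_one_sub_of_norm_lt_one h8)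
      have e : (↑U : E →L[ℂ] E) * (1 - (↑U⁻¹ : E →L[ℂ] E) * ((w - w₀) • A)) = 1 - w • A := by
        rw [mul_sub, mul_one, ← mul_assoc, U.mul_inv, one_mul, hU]
        module
      rwa [e] at h9
  obtain ⟨k, hk⟩ := exists_nat_ge (1 / δ)
  refine key k w hw (hw.trans ?_)
  rwa [div_le_iff₀ hδ0] at hk

/-- **The growth of the group.** -/
theorem growth_of (h : IsC0Group T)
    (hex : ∀ z : ℂ, 0 ≤ z.re → ∃ R : E →L[ℂ] E, IsResolvent T z R)
    (hN : ∃ N : ℝ, ∀ (z : ℂ) (R : E →L[ℂ] E), 0 ≤ z.re → IsResolvent T z R → ‖R‖ ≤ N)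
    (ε : ℝ) (hε : 0 < ε) : ∃ n : ℕ, 1 ≤ n ∧ ‖T n‖ ≤ Real.exp (ε * n) := by
  obtain ⟨C, hC0, hC⟩ := lower_all h hex hN
  have hunit := unit_all hC0 hC
  have hspec : spectralRadius ℂ (T 1) ≤ 1 := by
    refine iSup₂_le fun k hk => ?_
    by_contra hcon
    rw [not_le] at hcon
    have hk1 : 1 ≤ ‖k‖ := by
      have : (1 : NNReal) < ‖k‖₊ := by exact_mod_cast hcon
      exact_mod_cast this.le
    have hk0 : k ≠ 0 := by
      rintro rfl
      simp at hk1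
      linarith
    have h1 : IsUnit (1 - k⁻¹ • T 1) := by
      refine hunit _ ?_
      rw [norm_inv]
      exact inv_le_one_of_one_le₀ hk1
    have h2 : IsUnit (algebraMap ℂ (E →L[ℂ] E) k * (1 - k⁻¹ • T 1)) :=
      ((isUnit_iff_ne_zero.2 hk0).map (algebraMap ℂ (E →L[ℂ] E))).mul h1
    have e : algebraMap ℂ (E →L[ℂ] E) k * (1 - k⁻¹ • T 1) = algebraMap ℂ (E →L[ℂ] E) k - T 1 := by
      rw [Algebra.algebraMap_eq_smul_one, smul_mul_assoc, one_mul, smul_sub, smul_smul,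
        mul_inv_cancel₀ hk0, one_smul]
    rw [e] at h2
    exact hk h2
  have hgel := spectrum.pow_norm_pow_one_div_tendsto_nhds_spectralRadius (T 1)
  have h1 : spectralRadius ℂ (T 1) < ENNReal.ofReal (Real.exp ε) := by
    refine hspec.trans_lt ?_
    rw [← ENNReal.ofReal_one]
    exact (ENNReal.ofReal_lt_ofReal_iff (Real.exp_pos _)).2 (Real.one_lt_exp_iff.2 hε)
  have h2 := (hgel.eventually_lt_const h1).and (eventually_ge_atTop 1)
  obtain ⟨n, hn, hn1⟩ := h2.exists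
  refine ⟨n, hn1, ?_⟩
  have h3 : ‖T 1 ^ n‖ ^ (1 / n : ℝ) < Real.exp ε :=
    (ENNReal.ofReal_lt_ofReal_iff (Real.exp_pos _)).1 hn
  have hn0 : (0 : ℝ) < n := by exact_mod_cast hn1
  have h4 : ‖T 1 ^ n‖ = (‖T 1 ^ n‖ ^ (1 / n : ℝ)) ^ (n : ℝ) := by
    rw [← Real.rpow_mul (norm_nonneg _), one_div, inv_mul_cancel₀ hn0.ne', Real.rpow_one]
  have h5 : T n = T 1 ^ n := by
    have := h.pow 1 n
    rwa [mul_one] at this
  rw [h5, h4, Real.exp_mul]
  exact Real.rpow_le_rpow (by positivity) h3.le hn0.le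

end Pool.Agent.X136.GB
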